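import Pool.Agent.Lib.BE.AllPL

/-!
Primes on a combinatorial line, m in each bin: for all `k`, `m` there are `r`, `K`, `C` such that every admissible
family of different linear forms `a w s * n + b w s`, with `w` a word of length `r` in `k` letters and `s < K`,
has a combinatorial line such that for infinitely many `n` at each of the `k` words of the line `m` of the forms
are prime, at every word the values of `m` forms have all prime factors at least their `1 / C₀`-th power (`C₀`
ABSOLUTE), all values have all prime factors at least their `1 / C`-th power, and at least `k ^ r / 60` words have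
`m` prime values. The line is given by a template `v` (value `none`: the variable letter).
-/

namespace Pool.Agent.Results.MP_fb5b0b_nt.CombinatorialLines

theorem result :
    ∃ C₀ : ℕ, ∀ k m : ℕ, 1 ≤ k → 1 ≤ m → ∃ r K C : ℕ, ∀ a b : (Fin r → Fin k) → Fin K → ℤ,
      (∀ w s, 0 < a w s) →
      (∀ w s w' s', a w s = a w' s' → b w s = b w' s' → w = w' ∧ s = s') →
      (∀ p : ℕ, p.Prime → ∃ n : ℕ, ∀ w s, ¬ (p : ℤ) ∣ a w s * n + b w s) →
      ∃ (v : Fin r → Option (Fin k)) (s : Fin k → Fin m → Fin K) (σ : (Fin r → Fin k) → Fin m → Fin K),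
        (∃ t, v t = none) ∧ (∀ j, Function.Injective (s j)) ∧ (∀ w, Function.Injective (σ w)) ∧
        {n : ℕ | (∀ j i, ∃ p : ℕ, p.Prime ∧
            (p : ℤ) = a (fun t => (v t).getD j) (s j i) * n + b (fun t => (v t).getD j) (s j i)) ∧
          (∀ w i, ∃ q : ℕ, 1 ≤ q ∧ (q : ℤ) = a w (σ w i) * n + b w (σ w i) ∧
            ∀ p : ℕ, p.Prime → p ∣ q → q ≤ p ^ C₀) ∧
          (∀ w s', ∃ q : ℕ, 1 ≤ q ∧ (q : ℤ) = a w s' * n + b w s' ∧
            ∀ p : ℕ, p.Prime → p ∣ q → q ≤ p ^ C) ∧
          (k : ℝ) ^ r / 60 ≤ (({w : Fin r → Fin k | ∃ t : Fin m → Fin K, Function.Injective t ∧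
            ∀ i, ∃ p : ℕ, p.Prime ∧ (p : ℤ) = a w (t i) * n + b w (t i)} : Set _).ncard : ℝ)}.Infinite :=
  Pool.Agent.Lib.BE.dkPAll

end Pool.Agent.Results.MP_fb5b0b_nt.CombinatorialLines
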