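import Pool.Agent.Lib.MP_fb5b0b_nt.WD.ExD

/-!
Short windows at dilates: for a positive proportion of the integers y each of the k intervals
(P_j y, P_j y + ε log y], P_j = ∏ t ∈ T, f t j, contains exactly m primes, and the gaps between them grow.
-/

namespace Pool.Agent.Results.MP_fb5b0b_nt.DilatedWindows

theorem result (m : ℕ) (hm : 1 ≤ m) (C : ℝ) :
    ∃ ε₀ : ℝ, 0 < ε₀ ∧ ∀ (k : ℕ) (ε : ℝ), 1 ≤ k → 0 < ε → ε ≤ ε₀ →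
      ∃ r : ℕ, ∀ f : Fin r → Fin k → ℕ, (∀ t j, 1 ≤ f t j) →
        ∃ c : ℝ, 0 < c ∧ ∃ X₀ : ℕ, ∀ X : ℕ, X₀ ≤ X → ∃ T : Finset (Fin r), T.Nonempty ∧
          c * X ≤ (({y : ℕ | 1 ≤ y ∧ y ≤ X ∧ ∀ j : Fin k,
            ({p : ℕ | p.Prime ∧ (∏ t ∈ T, f t j) * y < p ∧
              (p : ℝ) ≤ (∏ t ∈ T, (f t j : ℝ)) * y + ε * Real.log y} : Set ℕ).ncard = m ∧
            ∀ n : ℕ, (∏ t ∈ T, f t j) * y < Nat.nth Nat.Prime n →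
              (Nat.nth Nat.Prime (n + 2) : ℝ) ≤ (∏ t ∈ T, (f t j : ℝ)) * y + ε * Real.log y →
              C * ((Nat.nth Nat.Prime (n + 1) : ℝ) - Nat.nth Nat.Prime n) <
                (Nat.nth Nat.Prime (n + 2) : ℝ) - Nat.nth Nat.Prime (n + 1)} : Set ℕ).ncard : ℝ) :=
  Pool.Agent.Lib.MP_fb5b0b_nt.WD.wePlain m hm C

end Pool.Agent.Results.MP_fb5b0b_nt.DilatedWindows
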