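import Pool.Agent.Lib.MP_fb5b0b_nt.FB.UTop

/-!
Given `r` tuples `f t = (f t 1, ..., f t k)` of positive integers, `r` large in terms of `k` and `δ`,
a set `A` of primes of logarithmic density `δ` (relative to the primes of a residue class modulo
`M`), and a positive proportion of the integers `n` (in logarithmic density): `M` divides `n`, and for
some nonempty set `T` of indices and some `h`, at most a power of `log n`, the `k` numbers
`(∏ t ∈ T, f t j) * n + h` all lie in `A`. The power depends on `k` only.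
-/

set_option autoImplicit false

namespace Pool.Agent.Results.MP_fb5b0b_nt.ProductMultipliers

open Classical in
theorem result (k : ℕ) :
    ∃ C : ℝ, ∀ δ : ℝ, 0 < δ → ∃ r : ℕ, ∀ f : Fin r → Fin k → ℕ, (∀ t j, 1 ≤ f t j) →
      ∀ M : ℕ, 1 ≤ M → ∃ c : ℝ, 0 < c ∧ ∃ D Z₀ : ℕ, ∀ Z Y a : ℕ, Z₀ ≤ Z → D * Z ≤ Y →
        ∀ A : Finset ℕ, (∀ p ∈ A, p.Prime ∧ p ≡ a [MOD M] ∧ Z < p ∧ p ≤ Y) →
          δ * Real.log (Y / Z) ≤ (M.totient : ℝ) * ∑ p ∈ A, Real.log p / p →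
          c * Real.log (Y / Z) ≤ ∑ n ∈ (Finset.Icc 1 Y).filter (fun n : ℕ => M ∣ n ∧
            ∃ T : Finset (Fin r), T.Nonempty ∧ ∃ h : ℕ, 1 ≤ h ∧ (h : ℝ) ≤ Real.log n ^ C ∧
              ∀ j, (∏ t ∈ T, f t j) * n + h ∈ A), 1 / (n : ℝ) :=
  Pool.Agent.Lib.MP_fb5b0b_nt.FB.uAll k

end Pool.Agent.Results.MP_fb5b0b_nt.ProductMultipliers
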